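import Pool.Agent.Helper55.MLA.Companion

set_option autoImplicit false
open Filter Topology Classical

namespace Pool.Agent.Results.MP_29e8a2_co.AllDimensions

/-- For every `c > 0` there is `D` such that, with probability tending to one, the sparse random graph
satisfies: for every `d`, the maximum likelihood estimate exists almost surely from `d` samples
(positive definite completability) if and only if the projection of the rank `d` Gram matrices has
nonempty interior, and both hold for `d = D`. -/
theorem result :
    ∀ c : ℝ, 0 < c → ∃ D : ℕ,
      Tendsto
        (fun n : ℕ =>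
          ∑ S : Finset (Sym2 (Fin n)),
            if (∀ e ∈ S, ¬ e.IsDiag) ∧
                D ∈ {d : ℕ | ∀ᵐ X : Fin d → Fin n → ℝ,
                    ∃ K : Matrix (Fin n) (Fin n) ℝ, K.PosDef ∧
                      ∀ i j : Fin n,
                        (i = j ∨ (SimpleGraph.fromEdgeSet (↑S : Set (Sym2 (Fin n)))).Adj i j) →
                        K i j = ∑ k, X k i * X k j} ∧
                {d : ℕ | ∀ᵐ X : Fin d → Fin n → ℝ,
                    ∃ K : Matrix (Fin n) (Fin n) ℝ, K.PosDef ∧
                      ∀ i j : Fin n,
                        (i = j ∨ (SimpleGraph.fromEdgeSet (↑S : Set (Sym2 (Fin n)))).Adj i j) →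
                        K i j = ∑ k, X k i * X k j}
                = {r : ℕ | (interior (Set.range
                    (fun Y : Fin n → Fin r → ℝ =>
                      fun q : {q : Fin n × Fin n // q.1 ≤ q.2 ∧
                          (q.1 = q.2 ∨
                            (SimpleGraph.fromEdgeSet (↑S : Set (Sym2 (Fin n)))).Adj q.1 q.2)} =>
                        ∑ k, Y q.1.1 k * Y q.1.2 k))).Nonempty}
            then (c / (n : ℝ)) ^ S.card * (1 - c / (n : ℝ)) ^ (n.choose 2 - S.card)
            else 0)
        atTop (𝓝 1) :=
  fun _ hc => Pool.Agent.Helper55.ML.companion hc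

end Pool.Agent.Results.MP_29e8a2_co.AllDimensions
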